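import Mathlib

set_option autoImplicit false

namespace Pool.Agent.H.MP_4df60b_co

open Finset

/-- Linear extensions of a poset, as linear order relations `r` (`r x y` means `x ≤ y` in the
extension) containing the order of the poset. -/
def LinExt (P : Type) [PartialOrder P] : Type :=
  {r : P → P → Prop // IsLinearOrder P r ∧ ∀ x y, x ≤ y → r x y}

noncomputable instance (P : Type) [PartialOrder P] [Finite P] : Fintype (LinExt P) :=
  @Fintype.ofFinite _ (by unfold LinExt; infer_instance)

open Classical in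
/-- Fractional realizer: for each ordered pair `(a, b)` of incomparable elements, the extensions
with `a` above `b` have total weight at least `1`. -/
def IsFracRealizer {P : Type} [PartialOrder P] [Finite P] (w : LinExt P → ℝ) : Prop :=
  (∀ L, 0 ≤ w L) ∧ ∀ a b : P, ¬ a ≤ b → ¬ b ≤ a → 1 ≤ ∑ L with L.1 b a, w L

open Classical in
/-- Fractional dimension of a finite poset (`1` for a chain). -/
noncomputable def fdim (P : Type) [PartialOrder P] [Finite P] : ℝ :=
  if ∀ a b : P, a ≤ b ∨ b ≤ a then 1
  else sInf {s | ∃ w : LinExt P → ℝ, IsFracRealizer w ∧ s = ∑ L, w L}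

/-- The poset `P(k,n)`: subsets `A` of `[n]` with `[i-1] ⊆ A` whenever `|A| = k + i - 1`, ordered
by inclusion. -/
abbrev PP (k n : ℕ) : Type :=
  {A : Finset ℕ // A ⊆ Icc 1 n ∧ ∀ i : ℕ, A.card + 1 = k + i → Icc 1 (i - 1) ⊆ A}

instance (k n : ℕ) : Finite (PP k n) :=
  ((Finset.finite_toSet (Icc 1 n).powerset).subset
    (t := {A : Finset ℕ | A ⊆ Icc 1 n ∧ ∀ i : ℕ, A.card + 1 = k + i → Icc 1 (i - 1) ⊆ A})
    fun _ h => Finset.mem_coe.2 (Finset.mem_powerset.2 h.1)).to_subtype

end Pool.Agent.H.MP_4df60b_co
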