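import Pool.Agent.H.MP_4df60b_co.Defs

set_option autoImplicit false

namespace Pool.Agent.H.MP_4df60b_co

open Finset

def key (R A : Finset ℕ) : ℕ := (A ∩ R).sup id

theorem key_mono (R : Finset ℕ) {A B : Finset ℕ} (h : A ⊆ B) : key R A ≤ key R B :=
  Finset.sup_mono (Finset.inter_subset_inter_right h)

/-- lexicographic extension -/
def lexExt {P : Type} [PartialOrder P] (s : LinExt P) (f : P → ℕ) (hf : Monotone f) : LinExt P :=
  ⟨fun x y => f x < f y ∨ (f x = f y ∧ s.1 x y),
    { refl := fun x => Or.inr ⟨rfl, s.2.1.refl x⟩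
      trans := by
        rintro x y z (h | h) (h' | h')
        · exact Or.inl (h.trans h')
        · exact Or.inl (h'.1 ▸ h)
        · exact Or.inl (h.1 ▸ h')
        · exact Or.inr ⟨h.1.trans h'.1, s.2.1.trans _ _ _ h.2 h'.2⟩
      antisymm := by
        rintro x y (h | h) (h' | h')
        · omega
        · omega
        · omega
        · exact s.2.1.antisymm _ _ h.2 h'.2
      total := by
        intro x y
        rcases lt_trichotomy (f x) (f y) with h | h | h
        · exact Or.inl (Or.inl h)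
        · rcases s.2.1.total x y with h' | h'
          · exact Or.inl (Or.inr ⟨h, h'⟩)
          · exact Or.inr (Or.inr ⟨h.symm, h'⟩)
        · exact Or.inr (Or.inl h) },
    fun x y h => (hf h).lt_or_eq.imp id fun e => ⟨e, s.2.2 x y h⟩⟩

theorem tail_card {k n : ℕ} (b : PP k n) (x : ℕ) (h1 : 1 ≤ x) (hx : x ∉ b.1) :
    (b.1.filter fun y => x < y).card ≤ k := by
  by_cases h : b.1.card ≤ k
  · exact (Finset.card_filter_le _ _).trans h
  · have h2 := b.2.2 (b.1.card + 1 - k) (by omega)
    have h3 : b.1.card + 1 - k - 1 < x := by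
      by_contra h4
      exact hx (h2 (Finset.mem_Icc.2 ⟨h1, by omega⟩))
    have h4 : (b.1.filter fun y => x < y) ⊆ b.1 \ Icc 1 (b.1.card + 1 - k - 1) := by
      intro y hy
      rw [Finset.mem_filter] at hy
      rw [Finset.mem_sdiff, Finset.mem_Icc]
      exact ⟨hy.1, by omega⟩
    have h5 := Finset.card_le_card h4
    rw [Finset.card_sdiff_of_subset h2, Nat.card_Icc] at h5
    omega

theorem upper (k n : ℕ) (hk : 1 ≤ k) : fdim (PP k n) ≤ ((k : ℝ) + 1) ^ (k + 1) / (k : ℝ) ^ k := by
  classical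
  have hk0 : (0 : ℝ) < k := by exact_mod_cast hk
  obtain ⟨p, hp⟩ : ∃ p : ℝ, p = 1 / ((k : ℝ) + 1) := ⟨_, rfl⟩
  obtain ⟨q, hq⟩ : ∃ q : ℝ, q = k / ((k : ℝ) + 1) := ⟨_, rfl⟩
  obtain ⟨C, hC⟩ : ∃ C : ℝ, C = ((k : ℝ) + 1) ^ (k + 1) / (k : ℝ) ^ k := ⟨_, rfl⟩
  have hp0 : 0 < p := by rw [hp]; positivity
  have hq0 : 0 < q := by rw [hq]; positivity
  have hpq : p + q = 1 := by rw [hp, hq]; field_simp; ring
  have hC0 : 0 < C := by rw [hC]; positivity
  have hCpq : C * (p * q ^ k) = 1 := by
    rw [hC, hp, hq, div_pow]; field_simp; ring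
  rw [← hC]
  unfold fdim
  split_ifs with hch
  · have h1 : p * q ^ k ≤ 1 := mul_le_one₀ (by linarith) (by positivity)
      (pow_le_one₀ hq0.le (by linarith))
    nlinarith
  obtain ⟨s, hs1, hs2⟩ := extend_partialOrder ((· ≤ ·) : PP k n → PP k n → Prop)
  let L : Finset ℕ → LinExt (PP k n) := fun R =>
    lexExt ⟨s, hs1, fun x y h => hs2 x y h⟩ (fun A => key R A.1) fun _ _ h => key_mono R h
  let μ : Finset ℕ → ℝ := fun R => (∏ _i ∈ R, p) * ∏ _i ∈ Icc 1 n \ R, q
  have hμ : ∀ R, 0 ≤ μ R := fun R => by positivity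
  have hsum : ∑ R ∈ (Icc 1 n).powerset, μ R = 1 := by
    rw [← Finset.prod_add]
    simp [hpq]
  refine csInf_le ⟨0, ?_⟩ ⟨fun M => ∑ R ∈ (Icc 1 n).powerset with L R = M, C * μ R, ⟨?_, ?_⟩, ?_⟩
  · rintro _ ⟨w, hw, rfl⟩
    exact Finset.sum_nonneg fun M _ => hw.1 M
  · exact fun M => Finset.sum_nonneg fun R _ => mul_nonneg hC0.le (hμ R)
  · intro a b hab _
    obtain ⟨x, hxa, hxb⟩ : ∃ x ∈ a.1, x ∉ b.1 := Finset.not_subset.1 hab
    have hxI := a.2.1 hxa
    have hx1 : 1 ≤ x := (Finset.mem_Icc.1 hxI).1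
    set T := b.1.filter fun y => x < y with hT
    have hTc : T.card ≤ k := tail_card b x hx1 hxb
    have hTI : T ⊆ Icc 1 n := (Finset.filter_subset _ _).trans b.2.1
    have hxT : x ∉ T := fun h => hxb (Finset.mem_filter.1 h).1
    have e1 : ∑ M with M.1 b a, ∑ R ∈ (Icc 1 n).powerset with L R = M, C * μ R =
        ∑ R ∈ (Icc 1 n).powerset with (L R).1 b a, C * μ R := by
      rw [← Finset.sum_fiberwise_of_maps_to (s := (Icc 1 n).powerset.filter fun R => (L R).1 b a)
        (t := univ.filter fun M : LinExt (PP k n) => M.1 b a) (g := L)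
        (fun R hR => by simpa using (Finset.mem_filter.1 hR).2)]
      refine Finset.sum_congr rfl fun M hM => Finset.sum_congr ?_ fun _ _ => rfl
      ext R
      simp only [Finset.mem_filter, mem_univ, true_and] at hM ⊢
      constructor
      · rintro ⟨h1, h2⟩
        exact ⟨⟨h1, h2 ▸ hM⟩, h2⟩
      · rintro ⟨⟨h1, -⟩, h2⟩
        exact ⟨h1, h2⟩
    have e2 : ∏ i ∈ Icc 1 n, ((if i ∈ T then 0 else p) + (if i = x then 0 else q)) =
        p * q ^ T.card := by
      rw [← Finset.mul_prod_erase _ _ hxI, ← Finset.prod_subset (s₁ := T)]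
      · rw [if_neg hxT, if_pos rfl, add_zero, Finset.prod_congr rfl (g := fun _ => q),
          Finset.prod_const]
        intro i hi
        rw [if_pos hi, if_neg (fun e : i = x => hxT (e ▸ hi)), zero_add]
      · intro i hi
        exact Finset.mem_erase.2 ⟨fun e => hxT (e ▸ hi), hTI hi⟩
      · intro i hi hiT
        rw [if_neg hiT, if_neg (Finset.mem_erase.1 hi).1, hpq]
    have e3 : p * q ^ T.card ≤ ∑ R ∈ (Icc 1 n).powerset with (L R).1 b a, μ R := by
      rw [← e2, Finset.prod_add, Finset.sum_filter]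
      refine Finset.sum_le_sum fun R _ => ?_
      by_cases hxR : x ∈ R
      · by_cases hRT : ∃ y ∈ R, y ∈ T
        · obtain ⟨y, h1, h2⟩ := hRT
          rw [Finset.prod_eq_zero (f := fun i => if i ∈ T then 0 else p) h1 (if_pos h2), zero_mul]
          split_ifs
          · exact hμ R
          · exact le_rfl
        · push Not at hRT
          have hlt : key R b.1 < key R a.1 := by
            refine lt_of_lt_of_le ((Finset.sup_lt_iff (by exact hx1)).2 fun y hy => ?_)
              (Finset.le_sup (f := id) (Finset.mem_inter.2 ⟨hxa, hxR⟩))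
            obtain ⟨h1, h2⟩ := Finset.mem_inter.1 hy
            have h3 : ¬ x < y := fun h => hRT y h2 (Finset.mem_filter.2 ⟨h1, h⟩)
            have h4 : y ≠ x := fun e => hxb (e ▸ h1)
            show y < x
            omega
          rw [if_pos (show (L R).1 b a from Or.inl hlt)]
          refine le_of_eq (congrArg₂ _ (Finset.prod_congr rfl fun i hi => if_neg (hRT i hi))
            (Finset.prod_congr rfl fun i hi => if_neg ?_))
          rintro rfl
          exact (Finset.mem_sdiff.1 hi).2 hxR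
      · rw [Finset.prod_eq_zero (f := fun i => if i = x then 0 else q)
          (Finset.mem_sdiff.2 ⟨hxI, hxR⟩) (if_pos rfl), mul_zero]
        split_ifs
        · exact hμ R
        · exact le_rfl
    have e4 : q ^ k ≤ q ^ T.card := pow_le_pow_of_le_one hq0.le (by linarith) hTc
    rw [e1, ← Finset.mul_sum, ← hCpq]
    gcongr
    exact le_trans (by gcongr) e3
  · have := Finset.sum_fiberwise (Icc 1 n).powerset L fun R => C * μ R
    rw [← Finset.mul_sum, hsum, mul_one] at this
    exact this.symm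

end Pool.Agent.H.MP_4df60b_co
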